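import Pool.Agent.Helper32.AG.Goals

/-!
# AG-N4: numbers
-/

set_option autoImplicit false

namespace Pool.Agent.Helper78.AG

open Pool.Agent.Helper32.AG

theorem pow_four_le {n : ℕ} (hn : 8 ≤ n) : n ^ 4 ≤ 3 ^ n := by
  induction n, hn using Nat.le_induction with
  | base => norm_num
  | succ n hn ih =>
    have h1 : (8 * (n + 1)) ^ 4 ≤ (9 * n) ^ 4 := Nat.pow_le_pow_left (by omega) 4
    rw [mul_pow, mul_pow] at h1
    rw [pow_succ 3 n]
    norm_num at h1
    omega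

theorem nine_sq_le {a : ℕ} (ha : 0 < a) : 9 * a ^ 2 ≤ 4 * 3 ^ a := by
  rcases Nat.lt_or_ge a 2 with h | h
  · interval_cases a
    norm_num
  · induction a, h using Nat.le_induction with
    | base => norm_num
    | succ n hn ih =>
      have h1 := ih (by omega)
      rw [pow_succ 3 n]
      nlinarith

/-- **N4.** -/
theorem n4 : N4Stmt := by
  intro p a b r hp hp2 ha hb h
  have hp3 : 3 ≤ p := by
    have := hp.two_le
    omega
  have hodd : Odd (p ^ a) := (hp.odd_of_ne_two hp2).pow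
  have hq3 : 3 ^ a ≤ p ^ a := Nat.pow_le_pow_left hp3 a
  have h9 := nine_sq_le ha
  have e1 : p ^ (2 * a * b) = (p ^ a) ^ (2 * b) := by
    rw [← pow_mul]
    congr 1
    ring
  rw [e1] at h ⊢
  have hqa : 3 ≤ p ^ a := by
    calc 3 = 3 ^ 1 := by norm_num
      _ ≤ 3 ^ a := Nat.pow_le_pow_right (by norm_num) ha
      _ ≤ p ^ a := hq3
  generalize hq : p ^ a = q at *
  obtain ⟨m, rfl⟩ : ∃ m, b = m + 2 := ⟨b - 2, by omega⟩
  -- q ^ (2 m + 2) ≤ 2 a ^ 2 r
  obtain ⟨w, rfl⟩ : ∃ w, q = w + 1 := ⟨q - 1, by omega⟩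
  rw [Nat.add_sub_cancel] at h
  have hw : 0 < w := by omega
  have h2 : (w + 1) ^ (2 * m + 2) * w ^ 2 < (w + 1) ^ (2 * (m + 2)) := by
    have : (w + 1) ^ (2 * (m + 2)) = (w + 1) ^ (2 * m + 2) * (w + 1) ^ 2 := by
      rw [← pow_add]
      congr 1
    rw [this]
    exact Nat.mul_lt_mul_of_pos_left (Nat.pow_lt_pow_left (by omega) (by norm_num))
      (by positivity)
  have h3 : (w + 1) ^ (2 * m + 2) ≤ 2 * a ^ 2 * r := by
    have h4 : (w + 1) ^ (2 * m + 2) * w ^ 2 ≤ (2 * a ^ 2 * r) * w ^ 2 := by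
      calc (w + 1) ^ (2 * m + 2) * w ^ 2 ≤ (w + 1) ^ (2 * (m + 2)) - 1 := by omega
        _ ≤ r * (2 * a ^ 2 * w ^ 2) := by omega
        _ = (2 * a ^ 2 * r) * w ^ 2 := by ring
    exact Nat.le_of_mul_le_mul_right h4 (by positivity)
  have h5 : 9 * (w + 1) ^ (2 * m + 1) ≤ 8 * r := by
    have h6 : (9 * (w + 1) ^ (2 * m + 1)) * (w + 1) ≤ (8 * r) * (w + 1) := by
      calc (9 * (w + 1) ^ (2 * m + 1)) * (w + 1) = 9 * (w + 1) ^ (2 * m + 2) := by ring
        _ ≤ 9 * (2 * a ^ 2 * r) := Nat.mul_le_mul_left _ h3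
        _ = 2 * r * (9 * a ^ 2) := by ring
        _ ≤ 2 * r * (4 * (w + 1)) := Nat.mul_le_mul_left _ (by omega)
        _ = (8 * r) * (w + 1) := by ring
    exact Nat.le_of_mul_le_mul_right h6 (by omega)
  rcases Nat.lt_or_ge ((w + 1) ^ (2 * m + 1)) 8 with h8 | h8
  · have hm : m = 0 := by
      by_contra hm
      have : 3 ^ 3 ≤ (w + 1) ^ (2 * m + 1) :=
        (Nat.pow_le_pow_left hqa 3).trans (Nat.pow_le_pow_right (by omega) (by omega))
      omega
    subst hm
    simp only [mul_zero, zero_add, pow_one] at h8 h5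
    have h7 : ∀ j, j ≤ r → 3 ^ j ≤ 3 ^ r := fun j hj => Nat.pow_le_pow_right (by norm_num) hj
    have hw' : w = 2 ∨ w = 3 ∨ w = 4 ∨ w = 5 ∨ w = 6 := by omega
    rcases hw' with rfl | rfl | rfl | rfl | rfl
    · have := h7 4 (by omega)
      norm_num at this ⊢
      omega
    · exact absurd hodd (by decide)
    · have := h7 6 (by omega)
      norm_num at this ⊢
      omega
    · exact absurd hodd (by decide)
    · have := h7 8 (by omega)
      norm_num at this ⊢
      omega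
  · calc (w + 1) ^ (2 * (m + 2)) ≤ ((w + 1) ^ (2 * m + 1)) ^ 4 := by
          rw [← pow_mul]
          exact Nat.pow_le_pow_right (by omega) (by omega)
      _ ≤ 3 ^ ((w + 1) ^ (2 * m + 1)) := pow_four_le h8
      _ ≤ 3 ^ r := Nat.pow_le_pow_right (by norm_num) (by omega)

end Pool.Agent.Helper78.AG
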